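import Pool.Agent.H987.Z.StC

/-! Task Z-C4: the tree of sheets is a local cover of the next stage. -/

set_option autoImplicit false
set_option linter.unusedSectionVars false
set_option linter.unusedSimpArgs false

open scoped BigOperators InnerProductSpace Topology
open Filter MeasureTheory

namespace Pool.Agent.H123.Z987

open Pool.Agent.H987.Z
open Pool.Agent.Y662.TR (LL Cf Mw dv hu clp clp_eq Cf_apply Cf_adj Cf_adj_ne Mw_apply Mw_sa
  dv_apply dv_self dv_ne)
open Pool.Agent.TH369.AN (Rz)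

variable {G : Type} [Group G] {n : ℕ}

/-! ### colours and words -/

open Classical in
/-- colour of the sheet (of the bond to the parent) -/
noncomputable def col : List (Ix G n) → Fin (n + 1)
  | [] => 0
  | (u, j) :: l => if u = 1 then Equiv.swap 0 (col l) j else j

open Classical in
/-- colour of the label `j` at the vertex `(l, x)` -/
noncomputable def cl (l : List (Ix G n)) (x : G) (j : Fin (n + 1)) : Fin (n + 1) :=
  if x = 1 then Equiv.swap 0 (col l) j else j

theorem col_cons (u : G) (j : Fin (n + 1)) (l : List (Ix G n)) : col ((u, j) :: l) = cl l u j := by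
  rfl

theorem cl_one (l : List (Ix G n)) (j : Fin (n + 1)) : cl l 1 j = Equiv.swap 0 (col l) j := by
  unfold cl; rw [if_pos rfl]

theorem cl_ne (l : List (Ix G n)) {x : G} (hx : x ≠ 1) (j : Fin (n + 1)) : cl l x j = j := by
  unfold cl; rw [if_neg hx]

theorem cl_inj (l : List (Ix G n)) (x : G) : Function.Injective (cl l x) := by
  intro i j h
  by_cases hx : x = 1
  · subst hx
    rw [cl_one, cl_one] at h
    exact (Equiv.swap 0 (col l)).injective h
  · rwa [cl_ne l hx, cl_ne l hx] at h

/-- the colour word -/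
noncomputable def cw : List (Ix G n) → List (G × Fin (n + 1))
  | [] => []
  | (u, j) :: l => (u, cl l u j) :: cw l

theorem cw_length (l : List (Ix G n)) : (cw l).length = l.length := by
  induction l with
  | nil => rfl
  | cons p l ih => obtain ⟨u, j⟩ := p; simp [cw, ih]

theorem cw_inj : Function.Injective (cw (G := G) (n := n)) := by
  intro l
  induction l with
  | nil =>
    intro l' h
    cases l' with
    | nil => rfl
    | cons p l' => obtain ⟨u, j⟩ := p; simp [cw] at h
  | cons p l ih =>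
    intro l' h
    obtain ⟨u, j⟩ := p
    cases l' with
    | nil => simp [cw] at h
    | cons p' l' =>
      obtain ⟨u', j'⟩ := p'
      simp only [cw, List.cons.injEq, Prod.mk.injEq] at h
      obtain ⟨⟨h1, h2⟩, h3⟩ := h
      have h4 := ih h3
      subst h4 h1
      rw [cl_inj l u h2]

theorem cw_mem (P : G → Prop) (l : List (Ix G n)) (h : ∀ p ∈ l, P p.1) : ∀ p ∈ cw l, P p.1 := by
  induction l with
  | nil => simp [cw]
  | cons p l ih =>
    obtain ⟨u, j⟩ := p
    intro q hq
    simp only [cw, List.mem_cons] at hq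
    rcases hq with rfl | hq
    · exact h (u, j) (by simp)
    · exact ih (fun p hp => h p (by simp [hp])) q hq

/-- reduced lists of labels -/
def RL : List (Ix G n) → Prop
  | [] => True
  | (u, j) :: l => (l ≠ [] → u = 1 → j ≠ 0) ∧ RL l

theorem cw_red (l : List (Ix G n)) (h : RL l) : RedC (cw l) := by
  induction l with
  | nil => trivial
  | cons p l ih =>
    obtain ⟨u, j⟩ := p
    cases l with
    | nil => simp only [cw]; trivial
    | cons p' l' =>
      obtain ⟨u', j'⟩ := p'
      have ih' := ih h.2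
      simp only [cw] at ih' ⊢
      refine ⟨fun hu => ?_, ih'⟩
      subst hu
      have hj := h.1 (by simp) rfl
      rw [cl_one, col_cons]
      intro hcon
      apply hj
      have h2 : Equiv.swap 0 (cl l' u' j') j = Equiv.swap 0 (cl l' u' j') 0 := by
        rw [Equiv.swap_apply_left]; exact hcon
      exact (Equiv.swap 0 (cl l' u' j')).injective h2

/-! ### the covering map -/

/-- the value of the list of labels -/
noncomputable def pl (s : Fin (n + 1) → G) : List (Ix G n) → G
  | [] => 1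
  | (u, j) :: l => pl s l * u * s (cl l u j)

noncomputable def pc (s : Fin (n + 1) → G) (v : Vt G n) : G := pl s v.1 * v.2

theorem pl_eq (s : Fin (n + 1) → G) (l : List (Ix G n)) : pl s l = pC s (cw l) := by
  induction l with
  | nil => rfl
  | cons p l ih => obtain ⟨u, j⟩ := p; simp [pl, cw, pC, ih]

/-! ### good vertices -/

theorem Bl_succ (E : Set G) (k : ℕ) : Bl E k ⊆ Bl E (k + 1) := Set.subset_union_left

theorem Bl_mono (E : Set G) {k m : ℕ} (h : k ≤ m) : Bl E k ⊆ Bl E m := by
  induction h with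
  | refl => exact subset_rfl
  | step _ ih => exact ih.trans (Bl_succ E _)

theorem Bl_one (E : Set G) (k : ℕ) : (1 : G) ∈ Bl E k := Bl_mono E (Nat.zero_le k) rfl

theorem Bl_mul (E : Set G) (k : ℕ) {x e : G} (hx : x ∈ Bl E k) (he : e ∈ E ∨ e = 1) :
    x * e ∈ Bl E (k + 1) := by
  rcases he with he | rfl
  · exact Or.inr ⟨x, hx, e, he, rfl⟩
  · rw [mul_one]; exact Bl_succ E k hx

structure Gd (E : Set G) (m : ℕ) (v : Vt G n) : Prop where
  len : v.1.length ≤ m
  ent : ∀ p ∈ v.1, p.1 ∈ Bl E m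
  pos : v.2 ∈ Bl E m
  red : RL v.1

theorem Gd.mono {E : Set G} {m k : ℕ} {v : Vt G n} (h : Gd E m v) (hk : m ≤ k) : Gd E k v :=
  ⟨h.len.trans hk, fun p hp => Bl_mono E hk (h.ent p hp), Bl_mono E hk h.pos, h.red⟩

theorem Gd_oo (E : Set G) (m : ℕ) : Gd E m (oo : Vt G n) :=
  ⟨Nat.zero_le _, by simp [oo], Bl_one E m, trivial⟩

theorem Gd_sheet {E : Set G} {m : ℕ} {l : List (Ix G n)} {x : G} (h : Gd E m (l, x)) {e : G}
    (he : e ∈ E ∨ e = 1) : Gd E (m + 1) (l, x * e) :=
  ⟨(h.mono (Nat.le_succ m)).len, (h.mono (Nat.le_succ m)).ent, Bl_mul E m h.pos he, h.red⟩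

theorem Gd_child {E : Set G} {m : ℕ} {v : Vt G n} (h : Gd E m v) {j : Fin (n + 1)}
    (hj : tf v j ≠ 0) : Gd E (m + 1) (ch j v) := by
  refine ⟨?_, ?_, Bl_one E _, ?_⟩
  · simpa [ch] using h.len
  · intro p hp
    simp only [ch, List.mem_cons] at hp
    rcases hp with rfl | hp
    · exact Bl_succ E m h.pos
    · exact Bl_succ E m (h.ent p hp)
  · refine ⟨fun hl hx hj0 => hj ?_, h.red⟩
    unfold tf
    rw [if_pos ⟨hl, hx, hj0⟩]

theorem Gd_parent {E : Set G} {m : ℕ} {l : List (Ix G n)} {u x : G} {j : Fin (n + 1)}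
    (h : Gd E m ((u, j) :: l, x)) : Gd E m (l, u) := by
  refine ⟨?_, fun p hp => h.ent p (by simp [hp]), h.ent (u, j) (by simp), h.red.2⟩
  have := h.len
  simp only [List.length_cons] at this
  change l.length ≤ m
  omega

theorem pc_inj {E : Set G} {s : Fin (n + 1) → G} {t : ℕ} (hL : LFc E s t) {v w : Vt G n}
    (hv : Gd E t v) (hw : Gd E t w) (h : pc s v = pc s w) : v = w := by
  obtain ⟨l, x⟩ := v
  obtain ⟨l', x'⟩ := w
  unfold pc at h
  simp only [pl_eq] at h
  obtain ⟨h1, h2⟩ := hL (cw l) (cw l') x x' (cw_red l hv.red) (cw_red l' hw.red)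
    (by rw [cw_length]; exact hv.len) (by rw [cw_length]; exact hw.len)
    (cw_mem (· ∈ Bl E t) l hv.ent) (cw_mem (· ∈ Bl E t) l' hw.ent) hv.pos hw.pos h
  rw [cw_inj h1, h2]

/-! ### formal operators -/

section formal
variable (b : G → ℝ) (a : ℝ) (F : Finset G)

/-- the formal operator on the group -/
noncomputable def hG (s : Fin (n + 1) → G) (W : G → ℝ) (f : G → ℂ) (g : G) : ℂ :=
  (∑ e ∈ F, ((b e : ℝ) : ℂ) * f (g * e)) + (a : ℂ) * (∑ j, f (g * s j)) +
    ((clp 1 (W g) : ℝ) : ℂ) * f g

open Classical in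
/-- the term of the parent -/
noncomputable def PT (f : Vt G n → ℂ) : Vt G n → ℂ
  | ([], _) => 0
  | ((u, j) :: l, x) => if x = 1 then ((tf (l, u) j : ℝ) : ℂ) * f (l, u) else 0

/-- the formal operator on the tree -/
noncomputable def hT (V : Vt G n → ℝ) (f : Vt G n → ℂ) (v : Vt G n) : ℂ :=
  (∑ e ∈ F, ((b e : ℝ) : ℂ) * f (v.1, v.2 * e)) +
    (a : ℂ) * ((∑ j, ((tf v j : ℝ) : ℂ) * f (ch j v)) + PT f v) +
    ((clp 1 (V v) : ℝ) : ℂ) * f v

variable {b a F}

theorem hT_local {E : Set G} (hE : ∀ g, b g ≠ 0 → g ∈ E ∨ g = 1) (V : Vt G n → ℝ)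
    {f f' : Vt G n → ℂ} {m : ℕ} (h : ∀ w, Gd E (m + 1) w → f w = f' w) {v : Vt G n}
    (hv : Gd E m v) : hT b a F V f v = hT b a F V f' v := by
  have h1 : ∀ e, ((b e : ℝ) : ℂ) * f (v.1, v.2 * e) = ((b e : ℝ) : ℂ) * f' (v.1, v.2 * e) := by
    intro e
    by_cases hb : b e = 0
    · simp [hb]
    · rw [h _ (Gd_sheet hv (hE e hb))]
  have h2 : ∀ j, ((tf v j : ℝ) : ℂ) * f (ch j v) = ((tf v j : ℝ) : ℂ) * f' (ch j v) := by
    intro j
    by_cases hb : tf v j = 0
    · simp [hb]
    · rw [h _ (Gd_child hv hb)]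
  have h3 : PT f v = PT f' v := by
    obtain ⟨l, x⟩ := v
    cases l with
    | nil => rfl
    | cons p l =>
      obtain ⟨u, j⟩ := p
      simp only [PT]
      rw [h _ ((Gd_parent hv).mono (Nat.le_succ m))]
  unfold hT
  rw [Finset.sum_congr rfl fun e _ => h1 e, Finset.sum_congr rfl fun j _ => h2 j, h3,
    h v (hv.mono (Nat.le_succ m))]

theorem hT_iter {E : Set G} (hE : ∀ g, b g ≠ 0 → g ∈ E ∨ g = 1) (V : Vt G n → ℝ) (k : ℕ) :
    ∀ {f f' : Vt G n → ℂ} {m : ℕ}, (∀ w, Gd E (m + k) w → f w = f' w) → ∀ {v : Vt G n},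
    Gd E m v → ((hT b a F V)^[k] f) v = ((hT b a F V)^[k] f') v := by
  induction k with
  | zero =>
    intro f f' m h v hv
    exact h v hv
  | succ k ih =>
    intro f f' m h v hv
    rw [Function.iterate_succ_apply', Function.iterate_succ_apply']
    refine hT_local hE V (m := m) (fun w hw => ?_) hv
    exact ih (m := m + 1) (fun w' hw' => h w' (by rwa [Nat.add_right_comm] at hw')) hw

/-- the intertwining relation at a good vertex -/
theorem inter {E : Set G} {s : Fin (n + 1) → G} (hs : ∀ j, s j * s j = 1) {m : ℕ}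
    (V : Vt G n → ℝ) (W : G → ℝ) (f : G → ℂ) {v : Vt G n} (hv : Gd E m v)
    (hW : W (pc s v) = V v) :
    hT b a F V (fun w => f (pc s w)) v = hG b a F s W f (pc s v) := by
  unfold hT hG
  rw [hW]
  have e1 : ∀ e, pc s (v.1, v.2 * e) = pc s v * e := fun e => by
    unfold pc; simp only [mul_assoc]
  simp only [e1]
  congr 2
  congr 1
  have e2 : ∀ j, pc s (ch j v) = pc s v * s (cl v.1 v.2 j) := by
    intro j
    obtain ⟨l, x⟩ := v
    unfold pc ch
    simp only [pl, mul_one]
  simp only [e2]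
  obtain ⟨l, x⟩ := v
  simp only
  by_cases hx : x = 1
  · subst hx
    cases l with
    | nil =>
      have : ∀ j, tf (([], 1) : Vt G n) j = 1 := fun j => by
        unfold tf; simp
      simp only [this, PT, add_zero, cl_one, col, Equiv.swap_self, Equiv.refl_apply,
        Complex.ofReal_one, one_mul]
    | cons p l =>
      obtain ⟨u, j0⟩ := p
      have ht : ∀ j, ((tf (((u, j0) :: l, 1) : Vt G n) j : ℝ) : ℂ) *
          f (pc s (((u, j0) :: l, 1) : Vt G n) * s (cl ((u, j0) :: l) 1 j)) =
          if j = 0 then 0 else f (pc s (((u, j0) :: l, 1) : Vt G n) *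
            s (cl ((u, j0) :: l) 1 j)) := by
        intro j
        unfold tf
        by_cases hj : j = 0
        · simp [hj]
        · simp [hj]
      simp only [ht]
      have hpar : PT (fun w => f (pc s w)) (((u, j0) :: l, 1) : Vt G n) =
          f (pc s (((u, j0) :: l, 1) : Vt G n) * s (cl ((u, j0) :: l) 1 0)) := by
        simp only [PT, if_true]
        have h1 : tf ((l, u) : Vt G n) j0 = 1 := by
          unfold tf
          rw [if_neg]
          rintro ⟨h2, h3, h4⟩
          exact (hv.red.1 h2 h3) h4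
        rw [h1, Complex.ofReal_one, one_mul]
        congr 1
        rw [cl_one, Equiv.swap_apply_left, col_cons]
        unfold pc
        simp only [pl, mul_one]
        rw [mul_assoc, hs, mul_one]
      rw [hpar]
      have hsum : (∑ j, if j = 0 then (0 : ℂ) else f (pc s (((u, j0) :: l, 1) : Vt G n) *
            s (cl ((u, j0) :: l) 1 j))) + f (pc s (((u, j0) :: l, 1) : Vt G n) *
            s (cl ((u, j0) :: l) 1 0)) = ∑ j, f (pc s (((u, j0) :: l, 1) : Vt G n) *
            s (cl ((u, j0) :: l) 1 j)) := by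
        rw [Fin.sum_univ_succ, Fin.sum_univ_succ]
        simp only [if_true, Fin.succ_ne_zero, if_false]
        ring
      rw [hsum]
      simp only [cl_one]
      exact Equiv.sum_comp (Equiv.swap 0 (col ((u, j0) :: l)))
        fun j => f (pc s (((u, j0) :: l, 1) : Vt G n) * s j)
  · have ht : ∀ j, tf ((l, x) : Vt G n) j = 1 := fun j => by
      unfold tf; simp [hx]
    have hpar : PT (fun w => f (pc s w)) ((l, x) : Vt G n) = 0 := by
      cases l with
      | nil => rfl
      | cons p l => obtain ⟨u, j⟩ := p; simp only [PT]; rw [if_neg hx]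
    simp only [ht, hpar, add_zero, cl_ne l hx, Complex.ofReal_one, one_mul]

theorem inter_iter {E : Set G} (hE : ∀ g, b g ≠ 0 → g ∈ E ∨ g = 1) {s : Fin (n + 1) → G}
    (hs : ∀ j, s j * s j = 1) {t : ℕ} (V : Vt G n → ℝ) (W : G → ℝ)
    (hW : ∀ v, Gd E t v → W (pc s v) = V v) (f : G → ℂ) (k : ℕ) :
    ∀ {m : ℕ}, m + k ≤ t → ∀ {v : Vt G n}, Gd E m v →
    ((hT b a F V)^[k] fun w => f (pc s w)) v = ((hG b a F s W)^[k] f) (pc s v) := by
  induction k with
  | zero =>
    intro m hm v hv
    rfl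
  | succ k ih =>
    intro m hm v hv
    rw [Function.iterate_succ_apply', Function.iterate_succ_apply']
    rw [← inter hs V W ((hG b a F s W)^[k] f) hv (hW v (hv.mono (by omega)))]
    exact hT_local hE V (fun w hw => ih (m := m + 1) (by omega) hw) hv

end formal

/-! ### the operators on `ℓ²` -/

theorem RA_shp : RA (shp (G := G) (n := n)) := by
  refine ⟨fun x => ?_, fun s t x => ?_⟩
  · obtain ⟨l, x⟩ := x; simp [shp]
  · obtain ⟨l, x⟩ := x; simp [shp, mul_assoc]

theorem RA_mul : RA (fun s : G => Equiv.mulRight s) := by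
  refine ⟨fun x => ?_, fun s t x => ?_⟩
  · simp
  · simp [mul_assoc]

theorem JB_apply (τ : Vt G n → Fin (n + 1) → ℝ) (hτ : ∀ v j, |τ v j| ≤ 1) (j : Fin (n + 1))
    (u : LL (Vt G n)) (v : Vt G n) : JB τ j u v = ((τ v j : ℝ) : ℂ) * u (ch j v) := by
  unfold JB
  change Mw 1 (fun v => τ v j) (Cf (ch j) (ch_inj j) u) v = _
  rw [Mw_apply, Cf_apply, clp_eq (by rw [abs_one]; exact hτ v j)]

theorem JB_adj (τ : Vt G n → Fin (n + 1) → ℝ) (j : Fin (n + 1)) :
    ContinuousLinearMap.adjoint (JB τ j) =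
      (ContinuousLinearMap.adjoint (Cf (ch j) (ch_inj j))).comp (Mw 1 fun v => τ v j) := by
  unfold JB
  change ContinuousLinearMap.adjoint ((Mw 1 fun v => τ v j).comp (Cf (ch j) (ch_inj j))) = _
  rw [ContinuousLinearMap.adjoint_comp]
  congr 1
  exact (Mw_sa 1 fun v => τ v j)

theorem tf_abs (v : Vt G n) (j : Fin (n + 1)) : |tf v j| ≤ 1 := by
  unfold tf; split_ifs <;> simp

theorem adj_co (u : LL (Vt G n)) (v : Vt G n) (j : Fin (n + 1)) :
    ContinuousLinearMap.adjoint (JB tf j) u v =
      ContinuousLinearMap.adjoint (Cf (ch j) (ch_inj j)) (Mw 1 (fun v => tf v j) u) v := by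
  rw [JB_adj]
  rfl

theorem adj_zero (u : LL (Vt G n)) (v : Vt G n) (j : Fin (n + 1)) (h : ∀ w, ch j w ≠ v) :
    ContinuousLinearMap.adjoint (JB tf j) u v = 0 := by
  rw [adj_co]
  exact Cf_adj_ne (ch j) (ch_inj j) _ _ h

theorem adj_one (u : LL (Vt G n)) (w : Vt G n) (j : Fin (n + 1)) :
    ContinuousLinearMap.adjoint (JB tf j) u (ch j w) = ((tf w j : ℝ) : ℂ) * u w := by
  rw [adj_co, Cf_adj, Mw_apply, clp_eq (by rw [abs_one]; exact tf_abs _ _)]

theorem adj_sum (u : LL (Vt G n)) (v : Vt G n) :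
    ∑ j : Fin (n + 1), ContinuousLinearMap.adjoint (JB tf j) u v = PT (fun w => u w) v := by
  obtain ⟨l, x⟩ := v
  cases l with
  | nil =>
    simp only [PT]
    refine Finset.sum_eq_zero fun j _ => adj_zero u _ j fun w hw => ?_
    unfold ch at hw
    simp at hw
  | cons p l =>
    obtain ⟨y, j0⟩ := p
    simp only [PT]
    by_cases hx : x = 1
    · subst hx
      rw [if_pos rfl, Finset.sum_eq_single j0]
      · exact adj_one u (l, y) j0
      · intro j _ hj
        refine adj_zero u _ j fun w hw => ?_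
        unfold ch at hw
        simp only [Prod.mk.injEq, List.cons.injEq] at hw
        exact hj hw.1.1.2
      · intro h; exact absurd (Finset.mem_univ _) h
    · rw [if_neg hx]
      refine Finset.sum_eq_zero fun j _ => adj_zero u _ j fun w hw => ?_
      unfold ch at hw
      simp only [Prod.mk.injEq] at hw
      exact hx hw.2.symm

theorem hT_eq (h0 : S_conv) {b : G → ℝ} (hb : Sy b) (a : ℝ) {F : Finset G}
    (hF : ∀ g, b g ≠ 0 → g ∈ F) (V : Vt G n → ℝ) (u : LL (Vt G n)) (v : Vt G n) :
    HV (TB b a tf) V u v = hT b a F V (fun w => u w) v := by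
  have h1 : KA shp b u v = ∑ e ∈ F, ((b e : ℝ) : ℂ) * u (v.1, v.2 * e) := by
    have := ((h0 G (Vt G n) shp RA_shp b b hb hb).1 u v).2
    rw [this]
    refine tsum_eq_sum fun e he => ?_
    have : b e = 0 := by
      by_contra hcon
      exact he (hF e hcon)
    simp [this]
  have h2 : HV (TB b a tf) V u v = KA shp b u v + (a : ℂ) * ∑ j : Fin (n + 1),
      (JB tf j u v + ContinuousLinearMap.adjoint (JB tf j) u v) + Mw 1 V u v := by
    unfold HV TB
    have e1 : ∀ (A B : LL (Vt G n) →L[ℂ] LL (Vt G n)), (A + B) u v = A u v + B u v :=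
      fun A B => rfl
    have e2 : ∀ (c : ℂ) (A : LL (Vt G n) →L[ℂ] LL (Vt G n)), (c • A) u v = c * A u v :=
      fun c A => rfl
    rw [e1, e1, e2]
    congr 2
    congr 1
    have e3 : ∀ (S : Finset (Fin (n + 1))) (A : Fin (n + 1) → LL (Vt G n) →L[ℂ] LL (Vt G n)),
        (∑ j ∈ S, A j) u v = ∑ j ∈ S, A j u v := by
      classical
      intro S A
      induction S using Finset.induction_on with
      | empty => rfl
      | insert j S hj ih =>
        rw [Finset.sum_insert hj, Finset.sum_insert hj, e1, ih]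
    rw [e3]
    rfl
  rw [h2, h1, Finset.sum_add_distrib, adj_sum, Mw_apply]
  unfold hT
  simp only [JB_apply tf tf_abs]

theorem bp_Sy {b : G → ℝ} (hb : Sy b) (a : ℝ) {s : Fin (n + 1) → G} (hs : ∀ j, s j * s j = 1) :
    Sy (bp b a s) := by
  classical
  have hinv : ∀ j, (s j)⁻¹ = s j := fun j => inv_eq_of_mul_eq_one_left (hs j)
  refine ⟨?_, fun g => ?_⟩
  · have h1 : Summable fun g => |b g| + |a| *
        ((Finset.univ.filter fun j => s j = g).card : ℝ) := by
      refine hb.sm.add (Summable.mul_left _ ?_)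
      refine summable_of_hasFiniteSupport ((Set.finite_range s).subset fun g hg => ?_)
      simp only [Function.mem_support, ne_eq, Nat.cast_eq_zero, Finset.card_eq_zero,
        Finset.filter_eq_empty_iff, Finset.mem_univ, true_implies, not_forall, not_not] at hg
      exact hg
    refine Summable.of_nonneg_of_le (fun g => abs_nonneg _) (fun g => ?_) h1
    unfold bp
    refine (abs_add_le _ _).trans ?_
    rw [abs_mul, Nat.abs_cast]
  · unfold bp
    rw [hb.sy]
    congr 4
    ext j
    simp only [Finset.mem_filter, Finset.mem_univ, true_and]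
    constructor
    · intro h
      rw [← hinv j, h, inv_inv]
    · intro h
      rw [← hinv j, h]

theorem hG_eq (h0 : S_conv) {b : G → ℝ} (hb : Sy b) (a : ℝ) {s : Fin (n + 1) → G}
    (hs : ∀ j, s j * s j = 1) {F : Finset G}
    (hF : ∀ g, b g ≠ 0 → g ∈ F) (hF' : ∀ j, s j ∈ F) (W : G → ℝ) (u : LL G) (g : G) :
    HV (KT (bp b a s)) W u g = hG b a F s W (fun w => u w) g := by
  classical
  have h1 : KT (bp b a s) u g = (∑ e ∈ F, ((b e : ℝ) : ℂ) * u (g * e)) +
      (a : ℂ) * ∑ j, u (g * s j) := by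
    have h := ((h0 G G (fun s => Equiv.mulRight s) RA_mul (bp b a s) (bp b a s) (bp_Sy hb a hs)
      (bp_Sy hb a hs)).1 u g).2
    unfold KT
    rw [h]
    have hbp : ∀ e, bp b a s e = b e + a * ∑ j, if s j = e then (1 : ℝ) else 0 := by
      intro e
      unfold bp
      simp only [Finset.sum_boole]
    have h2 : ∑' e, ((bp b a s e : ℝ) : ℂ) * u (Equiv.mulRight e g) =
        ∑ e ∈ F, ((bp b a s e : ℝ) : ℂ) * u (g * e) := by
      refine tsum_eq_sum fun e he => ?_
      have hz : bp b a s e = 0 := by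
        rw [hbp]
        have h3 : b e = 0 := by
          by_contra hcon
          exact he (hF e hcon)
        have h4 : ∀ j, (if s j = e then (1 : ℝ) else 0) = 0 := by
          intro j
          rw [if_neg]
          rintro rfl
          exact he (hF' j)
        simp only [h3, h4, Finset.sum_const_zero, mul_zero, add_zero]
      rw [hz]; simp
    rw [h2]
    have h3 : ∀ e, ((bp b a s e : ℝ) : ℂ) * u (g * e) = ((b e : ℝ) : ℂ) * u (g * e) +
        (a : ℂ) * ∑ j, if s j = e then u (g * e) else 0 := by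
      intro e
      rw [hbp]
      push_cast
      rw [add_mul, mul_assoc, Finset.sum_mul]
      congr 2
      refine Finset.sum_congr rfl fun j _ => ?_
      split_ifs <;> simp
    simp only [h3, Finset.sum_add_distrib, ← Finset.mul_sum]
    congr 2
    rw [Finset.sum_comm]
    refine Finset.sum_congr rfl fun j _ => ?_
    rw [Finset.sum_ite_eq, if_pos (hF' j)]
  have h2 : HV (KT (bp b a s)) W u g = KT (bp b a s) u g + Mw 1 W u g := rfl
  rw [h2, h1, Mw_apply]
  rfl

theorem pow_eq {ι : Type} (T : LL ι →L[ℂ] LL ι) (h : (ι → ℂ) → ι → ℂ)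
    (hT : ∀ (u : LL ι) (x : ι), T u x = h (fun w => u w) x) (k : ℕ) (u : LL ι) :
    (fun x => (T ^ k) u x) = h^[k] (fun w => u w) := by
  induction k with
  | zero => rfl
  | succ k ih =>
    rw [Function.iterate_succ_apply', ← ih]
    funext x
    rw [pow_succ']
    exact hT _ x

/-- **C4** -/
theorem cover (h0 : S_conv) (h2 : S_tree) : S_cover := by
  intro G _ n t b a s E hb hE hbE hs hL
  classical
  -- the finite set
  let F : Finset G := hE.toFinset ∪ {1} ∪ Finset.univ.image s
  have hF : ∀ g, b g ≠ 0 → g ∈ F := by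
    intro g hg
    simp only [F, Finset.mem_union, Set.Finite.mem_toFinset, Finset.mem_singleton]
    exact Or.inl (hbE g hg)
  have hF' : ∀ j, s j ∈ F := by
    intro j
    simp only [F, Finset.mem_union, Finset.mem_image, Finset.mem_univ, true_and]
    exact Or.inr ⟨j, rfl⟩
  -- the section
  let σ : G → Vt G n := fun g => if h : ∃ v : Vt G n, Gd E t v ∧ pc s v = g then h.choose else
    (List.replicate (t + 1) ((1 : G), (0 : Fin (n + 1))), g)
  have hσ1 : ∀ g (h : ∃ v : Vt G n, Gd E t v ∧ pc s v = g), Gd E t (σ g) ∧ pc s (σ g) = g := by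
    intro g h
    have : σ g = h.choose := dif_pos h
    rw [this]
    exact h.choose_spec
  have hσ2 : ∀ g (_ : ¬ ∃ v : Vt G n, Gd E t v ∧ pc s v = g),
      σ g = (List.replicate (t + 1) ((1 : G), (0 : Fin (n + 1))), g) := fun g h => dif_neg h
  have hσ3 : ∀ v : Vt G n, Gd E t v → σ (pc s v) = v := by
    intro v hv
    obtain ⟨h3, h4⟩ := hσ1 (pc s v) ⟨v, hv, rfl⟩
    exact pc_inj hL h3 hv h4
  refine ⟨σ, ?_, fun V k hk => ?_⟩
  · intro g g' h
    by_cases hg : ∃ v : Vt G n, Gd E t v ∧ pc s v = g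
    · by_cases hg' : ∃ v : Vt G n, Gd E t v ∧ pc s v = g'
      · rw [← (hσ1 g hg).2, ← (hσ1 g' hg').2, h]
      · exfalso
        have h5 := (hσ1 g hg).1.len
        rw [h, hσ2 g' hg'] at h5
        simp at h5
    · by_cases hg' : ∃ v : Vt G n, Gd E t v ∧ pc s v = g'
      · exfalso
        have h5 := (hσ1 g' hg').1.len
        rw [← h, hσ2 g hg] at h5
        simp at h5
      · rw [hσ2 g hg, hσ2 g' hg'] at h
        exact (Prod.ext_iff.1 h).2
  · have e1 := congrFun (pow_eq (HV (KT (bp b a s)) fun g => V (σ g))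
      (hG b a F s fun g => V (σ g)) (hG_eq h0 hb a hs hF hF' _) k (dv 1)) 1
    have e2 := congrFun (pow_eq (HV (TB b a tf) V) (hT b a F V) (hT_eq h0 hb a hF V) k
      (dv oo)) oo
    simp only at e1 e2
    rw [e1, e2]
    have h1 : pc s (oo : Vt G n) = 1 := by simp [pc, oo, pl]
    have e3 := inter_iter (a := a) (F := F) (t := t) hbE hs V (fun g => V (σ g))
      (fun v hv => by simp only [hσ3 v hv]) (fun w => dv (1 : G) w) k (m := 0)
      (by rw [Nat.zero_add]; exact hk)
      (Gd_oo (n := n) E 0)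
    rw [h1] at e3
    rw [← e3]
    refine hT_iter (E := E) hbE V k (m := 0) (fun (w : Vt G n) (hw : Gd E (0 + k) w) => ?_)
      (Gd_oo (n := n) E 0)
    have hk' : 0 + k ≤ t := by omega
    have hw' : Gd E t w := Gd.mono hw hk'
    rw [dv_apply, dv_apply]
    by_cases hwo : w = oo
    · rw [if_pos hwo, if_pos (by rw [hwo]; exact h1)]
    · rw [if_neg hwo, if_neg]
      intro h6
      exact hwo (pc_inj hL hw' (Gd_oo E t) (h6.trans h1.symm))

end Pool.Agent.H123.Z987
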